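import Mathlib
import Pool.Agent.H71R2.Frob.RF

/-!
# A residually finite one-relator group which is not residually solvable

The group is `⟨x, t | t²xt⁻² = [x, txt⁻¹]⟩`.  It is the ascending HNN extension of the free group
on `x, txt⁻¹` with respect to the injective endomorphism `a ↦ b ↦ [a, b]`, so the kernel of its
map onto `ℤ` is locally free, and the group is residually finite.  This kernel is perfect.
-/

set_option autoImplicit false

namespace Pool.Agent.W401.Perfect

open scoped commutatorElement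

/-- The first generator. -/
abbrev X : FreeGroup (Fin 2) := FreeGroup.of 0

/-- The second generator. -/
abbrev T : FreeGroup (Fin 2) := FreeGroup.of 1

/-- The relator `t²xt⁻² [x, txt⁻¹]⁻¹`. -/
def rel : FreeGroup (Fin 2) := T * (T * X * T⁻¹) * T⁻¹ * (⁅X, T * X * T⁻¹⁆)⁻¹

/-- The group. -/
abbrev G : Type := PresentedGroup ({rel} : Set (FreeGroup (Fin 2)))

/-- The generator `x`. -/
def x : G := PresentedGroup.of 0

/-- The generator `t`. -/
def t : G := PresentedGroup.of 1

theorem rel_eq : t * (t * x * t⁻¹) * t⁻¹ = ⁅x, t * x * t⁻¹⁆ := by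
  have h : (PresentedGroup.mk ({rel} : Set (FreeGroup (Fin 2)))) rel = 1 :=
    PresentedGroup.one_of_mem rfl
  have h2 : (PresentedGroup.mk ({rel} : Set (FreeGroup (Fin 2)))) rel =
      t * (t * x * t⁻¹) * t⁻¹ * (⁅x, t * x * t⁻¹⁆)⁻¹ := by
    have h3 : ∀ f : FreeGroup (Fin 2) →* G, f rel =
        f T * (f T * f X * (f T)⁻¹) * (f T)⁻¹ * (⁅f X, f T * f X * (f T)⁻¹⁆)⁻¹ := by
      intro f
      simp only [rel, map_mul, map_inv, map_commutatorElement]
    exact h3 _
  rw [h2, mul_inv_eq_one] at h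
  exact h

/-- The endomorphism `a ↦ b ↦ [a, b]`. -/
def phi : FreeGroup (Fin 2) →* FreeGroup (Fin 2) :=
  FreeGroup.lift ![T, ⁅X, T⁆]

/-- The map `a ↦ x`, `b ↦ txt⁻¹`. -/
def iota : FreeGroup (Fin 2) →* G := FreeGroup.lift ![x, t * x * t⁻¹]

theorem iota_X : iota X = x := by simp [iota]

theorem iota_T : iota T = t * x * t⁻¹ := by simp [iota]

theorem iota_phi (u : FreeGroup (Fin 2)) : iota (phi u) = t * iota u * t⁻¹ := by
  have h : iota.comp phi = (MulAut.conj t).toMonoidHom.comp iota := by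
    ext i
    fin_cases i
    · simp [iota, phi]
    · simp [iota, phi, map_commutatorElement]
      rw [← rel_eq]
  exact DFunLike.congr_fun h u

/-! ### Injectivity of `phi` -/

/-- The action of `ℤ` on the free group on `ℤ` by shifts. -/
def shift : Multiplicative ℤ →* MulAut (FreeGroup ℤ) where
  toFun n := FreeGroup.freeGroupCongr (Equiv.addLeft (Multiplicative.toAdd n))
  map_one' := by
    ext u
    have : (Equiv.addLeft (Multiplicative.toAdd (1 : Multiplicative ℤ)) : ℤ ≃ ℤ) =
        Equiv.refl ℤ := by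
      ext k; simp
    rw [this]
    simp
  map_mul' m n := by
    have h : (Equiv.addLeft (Multiplicative.toAdd (m * n)) : ℤ ≃ ℤ) =
        (Equiv.addLeft (Multiplicative.toAdd n)).trans (Equiv.addLeft (Multiplicative.toAdd m)) := by
      ext k; simp
    rw [h, ← FreeGroup.freeGroupCongr_trans]
    rfl

theorem phi_injective : Function.Injective phi := by
  let θ : FreeGroup (Fin 2) →* FreeGroup ℤ ⋊[shift] Multiplicative ℤ :=
    FreeGroup.lift ![SemidirectProduct.inr (Multiplicative.ofAdd 1),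
      SemidirectProduct.inl (FreeGroup.of 0)]
  let μ : FreeGroup (Fin 2) →* FreeGroup ℤ :=
    FreeGroup.lift ![FreeGroup.of 0, FreeGroup.of 1 * (FreeGroup.of 0)⁻¹]
  let ν : FreeGroup ℤ →* FreeGroup (Fin 2) :=
    FreeGroup.lift fun k => if k = 0 then X else if k = 1 then T * X else 1
  have h1 : θ.comp phi = SemidirectProduct.inl.comp μ := by
    ext i : 1
    fin_cases i
    · simp [θ, μ, phi]
    · simp [θ, μ, phi, commutatorElement_def]
      apply SemidirectProduct.ext
      · simp only [SemidirectProduct.mul_left, SemidirectProduct.left_inr,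
          SemidirectProduct.right_inr, SemidirectProduct.left_inl, SemidirectProduct.inv_left,
          SemidirectProduct.mul_right, SemidirectProduct.right_inl]
        simp [shift]
      · simp
  have h2 : ν.comp μ = MonoidHom.id _ := by
    ext i : 1
    fin_cases i
    · simp [ν, μ]
    · simp [ν, μ]
  have hμ : Function.Injective μ := by
    intro u v huv
    have h3 : ν (μ u) = ν (μ v) := by rw [huv]
    rw [← MonoidHom.comp_apply, ← MonoidHom.comp_apply, h2] at h3
    exact h3
  intro u v huv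
  have h3 : θ (phi u) = θ (phi v) := by rw [huv]
  rw [← MonoidHom.comp_apply, ← MonoidHom.comp_apply, h1] at h3
  exact hμ (SemidirectProduct.inl_injective h3)

/-! ### Injectivity of `iota` -/

/-- The isomorphism onto the image. -/
noncomputable def phiEquiv : (⊤ : Subgroup (FreeGroup (Fin 2))) ≃* phi.range :=
  Subgroup.topEquiv.trans (MonoidHom.ofInjective phi_injective)

theorem iota_injective : Function.Injective iota := by
  let H := HNNExtension (FreeGroup (Fin 2)) ⊤ phi.range phiEquiv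
  have hconj : ∀ u : FreeGroup (Fin 2), (HNNExtension.of (phi u) : H) =
      HNNExtension.t * HNNExtension.of u * HNNExtension.t⁻¹ := by
    intro u
    have := HNNExtension.equiv_eq_conj (φ := phiEquiv) ⟨u, Subgroup.mem_top u⟩
    rw [← this]
    rfl
  let ψ : G →* H := PresentedGroup.toGroup (f := ![HNNExtension.of X, HNNExtension.t]) (by
    intro r hr
    rw [Set.mem_singleton_iff.1 hr, rel]
    simp only [map_mul, map_inv, map_commutatorElement, FreeGroup.lift_apply_of]
    change HNNExtension.t * (HNNExtension.t * HNNExtension.of X * HNNExtension.t⁻¹) *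
      HNNExtension.t⁻¹ * (⁅(HNNExtension.of X : H), HNNExtension.t * HNNExtension.of X *
        HNNExtension.t⁻¹⁆)⁻¹ = 1
    rw [← hconj, ← hconj, mul_inv_eq_one, ← map_commutatorElement]
    simp [phi])
  have h : ψ.comp iota = HNNExtension.of := by
    ext i
    fin_cases i
    · simp [ψ, iota, x]
    · have h1 := hconj X
      simp [ψ, iota, x, t]
      change HNNExtension.t * HNNExtension.of X * HNNExtension.t⁻¹ = _
      rw [← h1]
      simp [phi]
      rfl
  intro u v huv
  have h3 : ψ (iota u) = ψ (iota v) := by rw [huv]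
  rw [← MonoidHom.comp_apply, ← MonoidHom.comp_apply, h] at h3
  exact HNNExtension.of_injective phiEquiv h3

theorem x_ne_one : x ≠ 1 := by
  rw [← iota_X, ← map_one iota]
  intro h
  exact FreeGroup.of_ne_one _ (iota_injective h)

/-! ### The derived series -/

theorem x_mem (k : ℕ) : x ∈ derivedSeries G k := by
  induction k with
  | zero => simp
  | succ k ih =>
    have h1 : t * x * t⁻¹ ∈ derivedSeries G k := (derivedSeries_normal G k).conj_mem _ ih t
    have h2 : ⁅x, t * x * t⁻¹⁆ ∈ derivedSeries G (k + 1) := by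
      rw [derivedSeries_succ]
      exact Subgroup.commutator_mem_commutator ih h1
    rw [← rel_eq] at h2
    have h3 := (derivedSeries_normal G (k + 1)).conj_mem _ h2 (t⁻¹ * t⁻¹)
    have h4 : t⁻¹ * t⁻¹ * (t * (t * x * t⁻¹) * t⁻¹) * (t⁻¹ * t⁻¹)⁻¹ = x := by group
    rwa [h4] at h3

/-! ### The kernel is locally free -/

/-- The character. -/
def chi : G →* Multiplicative ℤ :=
  PresentedGroup.toGroup (f := ![1, Multiplicative.ofAdd 1]) (by
    intro r hr
    rw [Set.mem_singleton_iff.1 hr, rel]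
    simp [commutatorElement_def])

theorem chi_x : chi x = 1 := by simp [chi, x]

theorem chi_t : chi t = Multiplicative.ofAdd 1 := by simp [chi, t]

theorem chi_surjective : Function.Surjective chi := by
  intro m
  refine ⟨t ^ (Multiplicative.toAdd m), ?_⟩
  rw [map_zpow, chi_t, ← ofAdd_zsmul]
  simp

theorem chi_iota (u : FreeGroup (Fin 2)) : chi (iota u) = 1 := by
  have h : chi.comp iota = 1 := by
    ext i
    fin_cases i
    · simp [iota, chi_x]
    · simp [iota, chi_x, chi_t]
  exact DFunLike.congr_fun h u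

theorem iota_pow (u : FreeGroup (Fin 2)) (n : ℕ) :
    iota ((phi : FreeGroup (Fin 2) → FreeGroup (Fin 2))^[n] u) = t ^ n * iota u * (t ^ n)⁻¹ := by
  induction n with
  | zero => simp
  | succ n ih =>
    rw [Function.iterate_succ_apply', iota_phi, ih, pow_succ']
    group

/-- The normal form `t^{-i} u t^j`. -/
theorem normal_form (g : G) : ∃ (i j : ℕ) (u : FreeGroup (Fin 2)),
    g = (t ^ i)⁻¹ * iota u * t ^ j := by
  have mul_aux : ∀ (i j k l : ℕ) (u v : FreeGroup (Fin 2)), ∃ (i' j' : ℕ) (w : FreeGroup (Fin 2)),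
      ((t ^ i)⁻¹ * iota u * t ^ j) * ((t ^ k)⁻¹ * iota v * t ^ l) =
        (t ^ i')⁻¹ * iota w * t ^ j' := by
    intro i j k l u v
    rcases le_total j k with h | h
    · -- `t ^ (j - k)` is moved to the left
      obtain ⟨d, rfl⟩ := Nat.exists_eq_add_of_le h
      refine ⟨i + d, l, (phi^[d] u) * v, ?_⟩
      rw [map_mul, iota_pow]
      have e1 : t ^ (j + d) = t ^ j * t ^ d := pow_add _ _ _
      have e2 : t ^ (i + d) = t ^ d * t ^ i := by rw [add_comm, pow_add]
      rw [e1, e2]
      group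
    · obtain ⟨d, rfl⟩ := Nat.exists_eq_add_of_le h
      refine ⟨i, d + l, u * (phi^[d] v), ?_⟩
      rw [map_mul, iota_pow]
      have e1 : t ^ (k + d) = t ^ d * t ^ k := by rw [add_comm, pow_add]
      have e2 : t ^ (d + l) = t ^ d * t ^ l := pow_add _ _ _
      rw [e1, e2]
      group
  let S : Subgroup G :=
    { carrier := {g | ∃ (i j : ℕ) (u : FreeGroup (Fin 2)), g = (t ^ i)⁻¹ * iota u * t ^ j}
      one_mem' := ⟨0, 0, 1, by simp⟩
      mul_mem' := by
        rintro a b ⟨i, j, u, rfl⟩ ⟨k, l, v, rfl⟩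
        exact mul_aux i j k l u v
      inv_mem' := by
        rintro a ⟨i, j, u, rfl⟩
        exact ⟨j, i, u⁻¹, by rw [map_inv]; group⟩ }
  have hS : g ∈ S := by
    apply PresentedGroup.generated_by
    intro i
    fin_cases i
    · exact ⟨0, 0, X, by simp [iota_X]; rfl⟩
    · exact ⟨0, 1, 1, by simp; rfl⟩
  exact hS

theorem mem_ker (g : G) (hg : chi g = 1) : ∃ (i : ℕ) (u : FreeGroup (Fin 2)),
    g = (t ^ i)⁻¹ * iota u * t ^ i := by
  obtain ⟨i, j, u, rfl⟩ := normal_form g
  rw [map_mul, map_mul, map_inv, map_pow, map_pow, chi_iota, chi_t] at hg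
  have h : (j : ℤ) = i := by
    have := congrArg Multiplicative.toAdd hg
    simp at this
    omega
  have h' : j = i := by exact_mod_cast h
  subst h'
  exact ⟨j, u, rfl⟩

/-- The subgroup `t^{-i} F t^i`. -/
def sub (i : ℕ) : Subgroup G := (iota.range).map (MulAut.conj (t ^ i)⁻¹).toMonoidHom

theorem mem_sub (i : ℕ) (g : G) : g ∈ sub i ↔ ∃ u, g = (t ^ i)⁻¹ * iota u * t ^ i := by
  constructor
  · rintro ⟨_, ⟨u, rfl⟩, rfl⟩
    refine ⟨u, ?_⟩
    change (t ^ i)⁻¹ * iota u * ((t ^ i)⁻¹)⁻¹ = _
    rw [inv_inv]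
  · rintro ⟨u, rfl⟩
    refine ⟨iota u, ⟨u, rfl⟩, ?_⟩
    change (t ^ i)⁻¹ * iota u * ((t ^ i)⁻¹)⁻¹ = _
    rw [inv_inv]

theorem sub_mono {i j : ℕ} (h : i ≤ j) : sub i ≤ sub j := by
  intro g hg
  obtain ⟨u, rfl⟩ := (mem_sub i g).1 hg
  obtain ⟨d, rfl⟩ := Nat.exists_eq_add_of_le h
  refine (mem_sub _ _).2 ⟨phi^[d] u, ?_⟩
  rw [iota_pow]
  have e1 : t ^ (i + d) = t ^ d * t ^ i := by rw [add_comm, pow_add]
  rw [e1]
  group

theorem isFree_sub (i : ℕ) : IsFreeGroup (sub i) := by
  have e1 : FreeGroup (Fin 2) ≃* iota.range := MonoidHom.ofInjective iota_injective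
  have e2 : iota.range ≃* sub i :=
    Subgroup.equivMapOfInjective _ _ (MulAut.conj (t ^ i)⁻¹).injective
  exact IsFreeGroup.ofMulEquiv (e1.trans e2)

theorem locallyFree (H : Subgroup G) (hH : H ≤ chi.ker) (hfg : H.FG) : IsFreeGroup H := by
  classical
  obtain ⟨S, hS⟩ := hfg
  have h1 : ∀ g ∈ S, ∃ i, g ∈ sub i := by
    intro g hg
    have hgH : g ∈ H := by rw [← hS]; exact Subgroup.subset_closure hg
    obtain ⟨i, u, hu⟩ := mem_ker g (MonoidHom.mem_ker.1 (hH hgH))
    exact ⟨i, (mem_sub i g).2 ⟨u, hu⟩⟩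
  have h2 : ∃ n, ∀ g ∈ S, g ∈ sub n := by
    clear hS
    induction S using Finset.induction_on with
    | empty => exact ⟨0, by simp⟩
    | insert a S ha ih =>
      obtain ⟨n, hn⟩ := ih fun g hg => h1 g (Finset.mem_insert_of_mem hg)
      obtain ⟨m, hm⟩ := h1 a (Finset.mem_insert_self a S)
      refine ⟨max n m, fun g hg => ?_⟩
      rcases Finset.mem_insert.1 hg with rfl | hg
      · exact sub_mono (le_max_right _ _) hm
      · exact sub_mono (le_max_left _ _) (hn g hg)
  obtain ⟨n, hn⟩ := h2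
  have h3 : H ≤ sub n := by
    rw [← hS, Subgroup.closure_le]
    exact hn
  have : IsFreeGroup (sub n) := isFree_sub n
  have h4 : IsFreeGroup (H.subgroupOf (sub n)) := inferInstance
  exact IsFreeGroup.ofMulEquiv (Subgroup.subgroupOfEquivOfLe h3)

theorem residuallyFinite : Group.ResiduallyFinite G := by
  let χ' : (⊤ : Subgroup G) →* Multiplicative ℤ := chi.comp (⊤ : Subgroup G).subtype
  refine H71R2.Frob.rf_of_virtually (⊤ : Subgroup G) χ' ?_ ?_
  · intro m
    obtain ⟨g, hg⟩ := chi_surjective m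
    exact ⟨⟨g, Subgroup.mem_top g⟩, hg⟩
  · intro H hH hfg
    have h1 : (H.map (⊤ : Subgroup G).subtype) ≤ chi.ker := by
      rintro _ ⟨g, hg, rfl⟩
      exact hH hg
    have h2 : (H.map (⊤ : Subgroup G).subtype).FG := H71R2.Frob.fg_map _ hfg
    have h3 := locallyFree _ h1 h2
    exact IsFreeGroup.ofMulEquiv
      (H.equivMapOfInjective (⊤ : Subgroup G).subtype (Subgroup.subtype_injective _)).symm

end Pool.Agent.W401.Perfect
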